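import Pool.Agent.N728.SP.Def

/-! SP/H2: the singular series is close to one on average. -/

set_option autoImplicit false

namespace Pool.Agent.N99.SP

open Finset Pool.Agent.N728.SP

namespace H2aux

/-- roots modulo `D` -/
def RT (c D : ℕ) : Finset ℕ := (range D).filter (fun x => (c * x) ^ 2 + c * x ≡ 1 [MOD D])

lemma root_mod {c D x : ℕ} (h : (c * x) ^ 2 + c * x ≡ 1 [MOD D]) :
    (c * (x % D)) ^ 2 + c * (x % D) ≡ 1 [MOD D] := by
  have h1 : c * (x % D) ≡ c * x [MOD D] := (Nat.mod_modEq x D).mul_left c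
  exact ((h1.pow 2).add h1).trans h

lemma mem_RT {c D x : ℕ} (hD : 0 < D) (h : (c * x) ^ 2 + c * x ≡ 1 [MOD D]) : x % D ∈ RT c D := by
  rw [RT, mem_filter, mem_range]
  exact ⟨Nat.mod_lt _ hD, root_mod h⟩

lemma rt_mul {c D p : ℕ} (hD : 0 < D) (hp : 0 < p) (h : D.Coprime p) :
    (RT c (D * p)).card ≤ (RT c D).card * (RT c p).card := by
  rw [← card_product]
  refine card_le_card_of_injOn (fun x => (x % D, x % p)) ?_ ?_
  · intro x hx
    have hx' := mem_coe.1 hx
    rw [RT, mem_filter] at hx'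
    rw [mem_coe, mem_product]
    exact ⟨mem_RT hD (hx'.2.of_mul_right p), mem_RT hp (hx'.2.of_mul_left D)⟩
  · intro x hx y hy hxy
    have hx' := mem_coe.1 hx
    have hy' := mem_coe.1 hy
    rw [RT, mem_filter, mem_range] at hx' hy'
    simp only [Prod.mk.injEq] at hxy
    have h1 : x ≡ y [MOD D * p] :=
      (Nat.modEq_and_modEq_iff_modEq_mul h).1 ⟨hxy.1, hxy.2⟩
    exact h1.eq_of_lt_of_lt hx'.1 hy'.1

lemma rt_prime {c p : ℕ} (hp : p.Prime) (hc : ¬ p ∣ c) : (RT c p).card ≤ 2 := by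
  by_contra hcon
  push Not at hcon
  obtain ⟨a, ha, b, hb, d, hd, hab, had, hbd⟩ := Finset.two_lt_card.1 hcon
  have := Fact.mk hp
  rw [RT, mem_filter, mem_range] at ha hb hd
  have hcz : (c : ZMod p) ≠ 0 := by
    intro h0
    exact hc ((ZMod.natCast_eq_zero_iff c p).1 h0)
  have key : ∀ x : ℕ, (c * x) ^ 2 + c * x ≡ 1 [MOD p] →
      ((c : ZMod p) * x) ^ 2 + (c : ZMod p) * x = 1 := by
    intro x hx
    have := (ZMod.natCast_eq_natCast_iff _ _ _).2 hx
    push_cast at this
    exact this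
  have inj : ∀ x y : ℕ, x < p → y < p → (x : ZMod p) = y → x = y := by
    intro x y hx hy h
    exact ((ZMod.natCast_eq_natCast_iff _ _ _).1 h).eq_of_lt_of_lt hx hy
  have ka := key a ha.2
  have kb := key b hb.2
  have kd := key d hd.2
  have e1 : ((c : ZMod p) * a - c * b) * (c * a + c * b + 1) = 0 := by
    linear_combination ka - kb
  have e2 : ((c : ZMod p) * a - c * d) * (c * a + c * d + 1) = 0 := by
    linear_combination ka - kd
  have n1 : (c : ZMod p) * a - c * b ≠ 0 := by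
    intro h0
    have : (c : ZMod p) * (a - b) = 0 := by linear_combination h0
    rcases mul_eq_zero.1 this with h | h
    · exact hcz h
    · exact hab (inj a b ha.1 hb.1 (sub_eq_zero.1 h))
  have n2 : (c : ZMod p) * a - c * d ≠ 0 := by
    intro h0
    have : (c : ZMod p) * (a - d) = 0 := by linear_combination h0
    rcases mul_eq_zero.1 this with h | h
    · exact hcz h
    · exact had (inj a d ha.1 hd.1 (sub_eq_zero.1 h))
  have f1 := (mul_eq_zero.1 e1).resolve_left n1
  have f2 := (mul_eq_zero.1 e2).resolve_left n2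
  have : (c : ZMod p) * (b - d) = 0 := by linear_combination f1 - f2
  rcases mul_eq_zero.1 this with h | h
  · exact hcz h
  · exact hbd (inj b d hb.1 hd.1 (sub_eq_zero.1 h))

lemma rt_prod {c : ℕ} (S : Finset ℕ) (hS : ∀ p ∈ S, p.Prime ∧ ¬ p ∣ c) :
    (RT c (∏ p ∈ S, p)).card ≤ 2 ^ S.card := by
  induction S using Finset.induction_on with
  | empty =>
    rw [prod_empty, card_empty, pow_zero]
    exact (card_filter_le _ _).trans (by simp)
  | insert q S hq ih =>
    have h1 := ih (fun p hp => hS p (mem_insert_of_mem hp))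
    obtain ⟨hqp, hqc⟩ := hS q (mem_insert_self _ _)
    have hcop : (∏ p ∈ S, p).Coprime q := by
      refine Nat.Coprime.prod_left fun p hp => ?_
      refine (Nat.coprime_primes (hS p (mem_insert_of_mem hp)).1 hqp).2 ?_
      rintro rfl
      exact hq hp
    have hpos : 0 < ∏ p ∈ S, p := prod_pos fun p hp => (hS p (mem_insert_of_mem hp)).1.pos
    rw [prod_insert hq, card_insert_of_notMem hq, mul_comm, pow_succ]
    exact (rt_mul hpos hqp.pos hcop).trans (Nat.mul_le_mul h1 (rt_prime hqp hqc))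

lemma class_card {V D : ℕ} (hD : 0 < D) (hDV : D ≤ V) (v : ℕ) :
    (((Ioc V (2 * V)).filter (fun x => x ≡ v [MOD D])).card : ℝ) ≤ 2 * V / D := by
  have h1 := Nat.Ioc_filter_modEq_card V (2 * V) hD v
  have hDq : (0 : ℚ) < D := by exact_mod_cast hD
  have h2 : (((Ioc V (2 * V)).filter (fun x => x ≡ v [MOD D])).card : ℚ) ≤ 2 * V / D := by
    have h3 : ((((Ioc V (2 * V)).filter (fun x => x ≡ v [MOD D])).card : ℤ) : ℚ) ≤
        2 * V / D := by
      rw [h1]
      have a1 := Int.floor_le (((2 * V : ℕ) - v : ℚ) / D)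
      have a2 := Int.lt_floor_add_one (((V : ℕ) - v : ℚ) / D)
      have a3 : (((2 * V : ℕ) - v : ℚ) / D) - (((V : ℕ) - v : ℚ) / D) = V / D := by
        push_cast
        ring
      have a4 : (1 : ℚ) ≤ V / D := by
        rw [le_div_iff₀ hDq, one_mul]
        exact_mod_cast hDV
      have a5 : (2 * V / D : ℚ) = V / D + V / D := by ring
      push_cast
      refine max_le ?_ (by positivity)
      push_cast at a1 a2 a3
      rw [a5]
      linarith
    exact_mod_cast h3
  have h4 : (((((Ioc V (2 * V)).filter (fun x => x ≡ v [MOD D])).card : ℚ)) : ℝ) ≤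
      ((2 * V / D : ℚ) : ℝ) := by exact_mod_cast h2
  push_cast at h4
  exact h4

lemma count {c D V : ℕ} (hD : 0 < D) (hDV : D ≤ V) :
    (((Ioc V (2 * V)).filter (fun x => (c * x) ^ 2 + c * x ≡ 1 [MOD D])).card : ℝ) ≤
      (RT c D).card * (2 * V / D) := by
  have h1 : (Ioc V (2 * V)).filter (fun x => (c * x) ^ 2 + c * x ≡ 1 [MOD D]) ⊆
      (RT c D).biUnion (fun v => (Ioc V (2 * V)).filter (fun x => x ≡ v [MOD D])) := by
    intro x hx
    rw [mem_filter] at hx
    rw [mem_biUnion]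
    refine ⟨x % D, mem_RT hD hx.2, ?_⟩
    rw [mem_filter]
    exact ⟨hx.1, (Nat.mod_modEq x D).symm⟩
  calc (((Ioc V (2 * V)).filter (fun x => (c * x) ^ 2 + c * x ≡ 1 [MOD D])).card : ℝ)
      ≤ (((RT c D).biUnion
          (fun v => (Ioc V (2 * V)).filter (fun x => x ≡ v [MOD D]))).card : ℝ) := by
        exact_mod_cast card_le_card h1
    _ ≤ ((∑ v ∈ RT c D, ((Ioc V (2 * V)).filter (fun x => x ≡ v [MOD D])).card : ℕ) : ℝ) := by
        exact_mod_cast card_biUnion_le
    _ = ∑ v ∈ RT c D, (((Ioc V (2 * V)).filter (fun x => x ≡ v [MOD D])).card : ℝ) := by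
        push_cast
        rfl
    _ ≤ ∑ v ∈ RT c D, (2 * V / D : ℝ) := sum_le_sum fun v _ => class_card hD hDV v
    _ = (RT c D).card * (2 * V / D) := by rw [sum_const, nsmul_eq_mul]

/-- the indicator of `p ∣ U(x)` -/
noncomputable def ind (c x p : ℕ) : ℝ := if p ∣ (c * x) ^ 2 + c * x - 1 then 1 else 0

lemma sum_ind {c V : ℕ} (hc : 1 ≤ c) (S : Finset ℕ) (hS : ∀ p ∈ S, p.Prime ∧ ¬ p ∣ c)
    (hDV : ∏ p ∈ S, p ≤ V) :
    ∑ x ∈ Ioc V (2 * V), ∏ p ∈ S, ind c x p ≤ 2 * V * ∏ p ∈ S, (2 / (p : ℝ)) := by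
  set D := ∏ p ∈ S, p with hDdef
  have hD : 0 < D := prod_pos fun p hp => (hS p hp).1.pos
  have h1 : ∀ x ∈ Ioc V (2 * V), ∏ p ∈ S, ind c x p ≤
      if (c * x) ^ 2 + c * x ≡ 1 [MOD D] then 1 else 0 := by
    intro x hx
    rw [mem_Ioc] at hx
    by_cases hall : ∀ p ∈ S, p ∣ (c * x) ^ 2 + c * x - 1
    · have hdvd : D ∣ (c * x) ^ 2 + c * x - 1 :=
        Finset.prod_primes_dvd _ (fun p hp => (hS p hp).1.prime) hall
      have hcx : 1 ≤ (c * x) ^ 2 + c * x := by
        have : 1 ≤ c * x := Nat.mul_pos (by omega) (by omega)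
        nlinarith
      have hmod : (c * x) ^ 2 + c * x ≡ 1 [MOD D] :=
        ((Nat.modEq_iff_dvd' hcx).2 hdvd).symm
      rw [if_pos hmod]
      refine prod_le_one (fun p _ => ?_) (fun p _ => ?_)
      · unfold ind
        split_ifs <;> norm_num
      · unfold ind
        split_ifs <;> norm_num
    · push Not at hall
      obtain ⟨p, hp, hpn⟩ := hall
      have : ∏ p ∈ S, ind c x p = 0 := prod_eq_zero hp (by unfold ind; rw [if_neg hpn])
      rw [this]
      split_ifs <;> norm_num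
  calc ∑ x ∈ Ioc V (2 * V), ∏ p ∈ S, ind c x p
      ≤ ∑ x ∈ Ioc V (2 * V), (if (c * x) ^ 2 + c * x ≡ 1 [MOD D] then 1 else 0 : ℝ) :=
        sum_le_sum h1
    _ = (((Ioc V (2 * V)).filter (fun x => (c * x) ^ 2 + c * x ≡ 1 [MOD D])).card : ℝ) := by
        rw [sum_boole]
    _ ≤ (RT c D).card * (2 * V / D) := count hD hDV
    _ ≤ 2 ^ S.card * (2 * V / D) := by
        refine mul_le_mul_of_nonneg_right ?_ (by positivity)
        exact_mod_cast rt_prod S hS
    _ = 2 * V * ∏ p ∈ S, (2 / (p : ℝ)) := by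
        rw [prod_div_distrib, prod_const, hDdef]
        push_cast
        ring

lemma kap_le {c x p : ℕ} (hp : p.Prime) :
    |kap p x (c * x)| ≤ ind c x p + 1 / ((p : ℝ) - 1) := by
  have h2 : (2 : ℝ) ≤ p := by exact_mod_cast hp.two_le
  have h3 : (0 : ℝ) ≤ 1 / ((p : ℝ) - 1) := by
    apply div_nonneg zero_le_one
    linarith
  unfold kap ind
  split_ifs with h1 h4 h5
  · rw [abs_zero]
    linarith
  · rw [abs_zero]
    linarith
  · rw [abs_one]
    linarith
  · rw [abs_neg, abs_of_nonneg h3]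
    linarith

lemma sum_kap {c r V : ℕ} (hc : 1 ≤ c) (hr : Squarefree r) (hrc : r.Coprime c) (hrV : r ≤ V) :
    ∑ x ∈ Ioc V (2 * V), |∏ p ∈ r.primeFactors, kap p x (c * x)| ≤
      2 * V * ∏ p ∈ r.primeFactors, (3 / ((p : ℝ) - 1)) := by
  have hr0 : r ≠ 0 := hr.ne_zero
  have hP : ∀ p ∈ r.primeFactors, p.Prime ∧ ¬ p ∣ c := by
    intro p hp
    have hpp := Nat.prime_of_mem_primeFactors hp
    refine ⟨hpp, fun h => ?_⟩
    exact (Nat.Prime.coprime_iff_not_dvd hpp).1
      (Nat.Coprime.coprime_dvd_left (Nat.dvd_of_mem_primeFactors hp) hrc) h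
  have hge : ∀ p ∈ r.primeFactors, (2 : ℝ) ≤ p := fun p hp => by
    exact_mod_cast (hP p hp).1.two_le
  calc ∑ x ∈ Ioc V (2 * V), |∏ p ∈ r.primeFactors, kap p x (c * x)|
      ≤ ∑ x ∈ Ioc V (2 * V), ∏ p ∈ r.primeFactors, (ind c x p + 1 / ((p : ℝ) - 1)) := by
        refine sum_le_sum fun x _ => ?_
        rw [abs_prod]
        exact prod_le_prod (fun p _ => abs_nonneg _) (fun p hp => kap_le (hP p hp).1)
    _ = ∑ x ∈ Ioc V (2 * V), ∑ S ∈ r.primeFactors.powerset, (∏ p ∈ S, ind c x p) *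
          ∏ p ∈ r.primeFactors \ S, (1 / ((p : ℝ) - 1)) := by
        refine sum_congr rfl fun x _ => ?_
        exact prod_add _ _ _
    _ = ∑ S ∈ r.primeFactors.powerset, (∑ x ∈ Ioc V (2 * V), ∏ p ∈ S, ind c x p) *
          ∏ p ∈ r.primeFactors \ S, (1 / ((p : ℝ) - 1)) := by
        rw [sum_comm]
        refine sum_congr rfl fun S _ => ?_
        rw [sum_mul]
    _ ≤ ∑ S ∈ r.primeFactors.powerset, (2 * V * ∏ p ∈ S, (2 / (p : ℝ))) *
          ∏ p ∈ r.primeFactors \ S, (1 / ((p : ℝ) - 1)) := by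
        refine sum_le_sum fun S hS => ?_
        rw [mem_powerset] at hS
        refine mul_le_mul_of_nonneg_right ?_ ?_
        · refine sum_ind hc S (fun p hp => hP p (hS hp)) ?_
          refine le_trans (Nat.le_of_dvd (Nat.pos_of_ne_zero hr0) ?_) hrV
          conv_rhs => rw [← Nat.prod_primeFactors_of_squarefree hr]
          exact prod_dvd_prod_of_subset _ _ _ hS
        · refine prod_nonneg fun p hp => ?_
          have := hge p (mem_sdiff.1 hp).1
          apply div_nonneg zero_le_one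
          linarith
    _ = 2 * V * ∑ S ∈ r.primeFactors.powerset, (∏ p ∈ S, (2 / (p : ℝ))) *
          ∏ p ∈ r.primeFactors \ S, (1 / ((p : ℝ) - 1)) := by
        rw [mul_sum]
        refine sum_congr rfl fun S _ => ?_
        ring
    _ = 2 * V * ∏ p ∈ r.primeFactors, (2 / (p : ℝ) + 1 / ((p : ℝ) - 1)) := by
        rw [prod_add]
    _ ≤ 2 * V * ∏ p ∈ r.primeFactors, (3 / ((p : ℝ) - 1)) := by
        refine mul_le_mul_of_nonneg_left ?_ (by positivity)
        refine prod_le_prod (fun p hp => ?_) (fun p hp => ?_)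
        · have := hge p hp
          have : (0 : ℝ) ≤ 1 / ((p : ℝ) - 1) := by
            apply div_nonneg zero_le_one
            linarith
          positivity
        · have h2 := hge p hp
          have h3 : (0 : ℝ) < (p : ℝ) - 1 := by linarith
          have h4 : 2 / (p : ℝ) ≤ 2 / ((p : ℝ) - 1) :=
            div_le_div_of_nonneg_left (by norm_num) h3 (by linarith)
          calc 2 / (p : ℝ) + 1 / ((p : ℝ) - 1) ≤ 2 / ((p : ℝ) - 1) + 1 / ((p : ℝ) - 1) := by
                linarith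
            _ = 3 / ((p : ℝ) - 1) := by rw [← add_div]; norm_num

lemma totient_sqfree {r : ℕ} (hr : Squarefree r) :
    (Nat.totient r : ℝ) = ∏ p ∈ r.primeFactors, ((p : ℝ) - 1) := by
  have h1 := Nat.totient_mul_prod_primeFactors r
  rw [Nat.prod_primeFactors_of_squarefree hr, mul_comm] at h1
  have h2 := Nat.eq_of_mul_eq_mul_left (Nat.pos_of_ne_zero hr.ne_zero) h1
  rw [h2]
  push_cast
  refine prod_congr rfl fun p hp => ?_
  rw [Nat.cast_sub (Nat.prime_of_mem_primeFactors hp).one_le]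
  norm_num

/-- the local factor of the upper bound -/
noncomputable def hp (p : ℕ) : ℝ := 3 / ((p : ℝ) - 1) ^ 2

lemma hp_nonneg (p : ℕ) : 0 ≤ hp p := by
  unfold hp
  positivity

lemma sum_hp {z : ℕ} (hz : 2 ≤ z) (Q : ℕ) :
    ∑ p ∈ Icc (z + 1) Q, hp p ≤ 6 / z := by
  have key : ∀ n : ℕ, z ≤ n →
      ∑ p ∈ Icc (z + 1) n, hp p ≤ 3 / ((z : ℝ) - 1 / 2) - 3 / ((n : ℝ) - 1 / 2) := by
    intro n hn
    induction n, hn using Nat.le_induction with
    | base => simp
    | succ n hn ih =>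
      have hn' : (z : ℝ) ≤ n := by exact_mod_cast hn
      have hz' : (2 : ℝ) ≤ z := by exact_mod_cast hz
      rw [sum_Icc_succ_top (by omega)]
      have h1 : hp (n + 1) ≤ 3 / ((n : ℝ) - 1 / 2) - 3 / (((n + 1 : ℕ) : ℝ) - 1 / 2) := by
        unfold hp
        push_cast
        have a1 : (0 : ℝ) < (n : ℝ) - 1 / 2 := by linarith
        have a2 : (0 : ℝ) < (n : ℝ) + 1 - 1 / 2 := by linarith
        have a3 : (0 : ℝ) < (n : ℝ) := by linarith
        rw [add_sub_cancel_right, div_sub_div _ _ a1.ne' a2.ne',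
          div_le_div_iff₀ (by positivity) (mul_pos a1 a2)]
        nlinarith
      linarith
  have hz' : (2 : ℝ) ≤ z := by exact_mod_cast hz
  have h6 : 3 / ((z : ℝ) - 1 / 2) ≤ 6 / z := by
    rw [div_le_div_iff₀ (by linarith) (by linarith)]
    linarith
  rcases le_or_gt z Q with h | h
  · have h1 := key Q h
    have h2 : (z : ℝ) ≤ Q := by exact_mod_cast h
    have h3 : 0 ≤ 3 / ((Q : ℝ) - 1 / 2) := div_nonneg (by norm_num) (by linarith)
    linarith
  · rw [Icc_eq_empty (by omega), sum_empty]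
    positivity

lemma sum_RR {z Q : ℕ} (hz : 2 ≤ z) :
    ∑ r ∈ (RR (primorial z) Q).filter (fun r => r ≠ 1), ∏ p ∈ r.primeFactors, hp p ≤
      6 * Real.exp 3 / z := by
  set T := (Icc (z + 1) Q).filter Nat.Prime with hT
  have hmem : ∀ r ∈ (RR (primorial z) Q).filter (fun r => r ≠ 1),
      r.primeFactors ∈ T.powerset.erase ∅ ∧ Squarefree r := by
    intro r hr
    rw [mem_filter, RR, mem_filter, mem_Icc] at hr
    obtain ⟨⟨⟨h1, h2⟩, h3, h4⟩, h5⟩ := hr
    refine ⟨?_, h3⟩
    rw [mem_erase, mem_powerset]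
    refine ⟨?_, ?_⟩
    · intro h0
      rw [Nat.primeFactors_eq_empty] at h0
      omega
    · intro p hp
      have hpp := Nat.prime_of_mem_primeFactors hp
      rw [hT, mem_filter, mem_Icc]
      refine ⟨⟨?_, (Nat.le_of_dvd (by omega) (Nat.dvd_of_mem_primeFactors hp)).trans h2⟩, hpp⟩
      by_contra hlt
      have hpz : p ≤ z := by omega
      have hd : p ∣ primorial z := (hpp.dvd_primorial_iff).2 hpz
      have := Nat.Coprime.coprime_dvd_left (Nat.dvd_of_mem_primeFactors hp) h4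
      exact (Nat.Prime.coprime_iff_not_dvd hpp).1 this hd
  have h1 : ∑ r ∈ (RR (primorial z) Q).filter (fun r => r ≠ 1), ∏ p ∈ r.primeFactors, hp p ≤
      ∑ S ∈ T.powerset.erase ∅, ∏ p ∈ S, hp p := by
    have hinj : Set.InjOn Nat.primeFactors
        ((RR (primorial z) Q).filter (fun r => r ≠ 1) : Finset ℕ) := by
      intro r hr q hq hrq
      have a1 := (hmem r (mem_coe.1 hr)).2
      have a2 := (hmem q (mem_coe.1 hq)).2
      rw [← Nat.prod_primeFactors_of_squarefree a1, ← Nat.prod_primeFactors_of_squarefree a2, hrq]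
    rw [← sum_image (f := fun S => ∏ p ∈ S, hp p) hinj]
    refine sum_le_sum_of_subset_of_nonneg ?_ (fun S _ _ => prod_nonneg fun p _ => hp_nonneg p)
    intro S hS
    rw [mem_image] at hS
    obtain ⟨r, hr, rfl⟩ := hS
    exact (hmem r hr).1
  have h2 : ∑ S ∈ T.powerset.erase ∅, ∏ p ∈ S, hp p = ∏ p ∈ T, (1 + hp p) - 1 := by
    rw [prod_one_add, ← add_sum_erase _ _ (empty_mem_powerset T)]
    simp
  have h3 : ∏ p ∈ T, (1 + hp p) ≤ Real.exp (∑ p ∈ T, hp p) := by
    rw [Real.exp_sum]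
    refine prod_le_prod (fun p _ => by have := hp_nonneg p; linarith) (fun p _ => ?_)
    have := Real.add_one_le_exp (hp p)
    linarith
  have h4 : ∑ p ∈ T, hp p ≤ 6 / z := by
    refine (sum_le_sum_of_subset_of_nonneg (filter_subset _ _) fun p _ _ => hp_nonneg p).trans
      (sum_hp hz Q)
  have hz' : (2 : ℝ) ≤ z := by exact_mod_cast hz
  set t : ℝ := 6 / z with ht
  have ht0 : 0 ≤ t := by positivity
  have ht3 : t ≤ 3 := by
    rw [ht, div_le_iff₀ (by linarith)]
    linarith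
  have h5 : Real.exp t - 1 ≤ t * Real.exp 3 := by
    have a1 : 1 - t ≤ Real.exp (-t) := by
      have := Real.add_one_le_exp (-t)
      linarith
    have a2 : Real.exp t * Real.exp (-t) = 1 := by
      rw [← Real.exp_add]
      simp
    have a3 : 0 < Real.exp t := Real.exp_pos t
    have a4 : Real.exp t ≤ Real.exp 3 := Real.exp_le_exp.2 ht3
    nlinarith
  calc _ ≤ ∏ p ∈ T, (1 + hp p) - 1 := by rw [← h2]; exact h1
    _ ≤ Real.exp t - 1 := by
        have := Real.exp_le_exp.2 h4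
        linarith
    _ ≤ t * Real.exp 3 := h5
    _ = 6 * Real.exp 3 / z := by rw [ht]; ring

end H2aux

open H2aux in
theorem t_H2 : S_H2 := by
  refine ⟨12 * Real.exp 3, fun z Q V m hz hQ hm hQV => ?_⟩
  set M := primorial z with hM
  have hM0 : 0 < M := primorial_pos z
  have hm0 : 0 < m := Nat.pos_of_dvd_of_pos hm hM0
  have hc : 1 ≤ M * m := Nat.mul_pos hM0 hm0
  have hz' : (2 : ℝ) ≤ z := by exact_mod_cast hz
  have h1mem : 1 ∈ RR M Q := by
    rw [RR, mem_filter, mem_Icc]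
    exact ⟨⟨le_rfl, hQ⟩, squarefree_one, Nat.coprime_one_left M⟩
  have hsplit : ∀ x, SS1 M Q x (M * m * x) - 1 =
      ∑ r ∈ (RR M Q).filter (fun r => r ≠ 1), (1 / (Nat.totient r : ℝ)) *
        ∏ p ∈ r.primeFactors, kap p x (M * m * x) := by
    intro x
    unfold SS1
    rw [← add_sum_erase _ _ h1mem, filter_ne' (RR M Q) 1]
    simp
  have hR : ∀ r ∈ (RR M Q).filter (fun r => r ≠ 1), Squarefree r ∧ r.Coprime (M * m) ∧ r ≤ V := by
    intro r hr
    rw [mem_filter, RR, mem_filter, mem_Icc] at hr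
    exact ⟨hr.1.2.1, Nat.Coprime.mul_right hr.1.2.2
      (Nat.Coprime.coprime_dvd_right hm hr.1.2.2), hr.1.1.2.trans hQV⟩
  calc ∑ x ∈ Ioc V (2 * V), |SS1 M Q x (M * m * x) - 1|
      ≤ ∑ x ∈ Ioc V (2 * V), ∑ r ∈ (RR M Q).filter (fun r => r ≠ 1), (1 / (Nat.totient r : ℝ)) *
          |∏ p ∈ r.primeFactors, kap p x (M * m * x)| := by
        refine sum_le_sum fun x _ => ?_
        rw [hsplit]
        refine (abs_sum_le_sum_abs _ _).trans (sum_le_sum fun r _ => ?_)
        rw [abs_mul, abs_of_nonneg (by positivity)]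
    _ = ∑ r ∈ (RR M Q).filter (fun r => r ≠ 1), (1 / (Nat.totient r : ℝ)) *
          ∑ x ∈ Ioc V (2 * V), |∏ p ∈ r.primeFactors, kap p x (M * m * x)| := by
        rw [sum_comm]
        refine sum_congr rfl fun r _ => ?_
        rw [mul_sum]
    _ ≤ ∑ r ∈ (RR M Q).filter (fun r => r ≠ 1), (1 / (Nat.totient r : ℝ)) *
          (2 * V * ∏ p ∈ r.primeFactors, (3 / ((p : ℝ) - 1))) := by
        refine sum_le_sum fun r hr => ?_
        obtain ⟨a1, a2, a3⟩ := hR r hr
        exact mul_le_mul_of_nonneg_left (sum_kap hc a1 a2 a3) (by positivity)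
    _ = 2 * V * ∑ r ∈ (RR M Q).filter (fun r => r ≠ 1), ∏ p ∈ r.primeFactors, hp p := by
        rw [mul_sum]
        refine sum_congr rfl fun r hr => ?_
        rw [totient_sqfree (hR r hr).1]
        have : ∏ p ∈ r.primeFactors, hp p =
            (1 / ∏ p ∈ r.primeFactors, ((p : ℝ) - 1)) * ∏ p ∈ r.primeFactors, (3 / ((p : ℝ) - 1)) := by
          rw [one_div, ← prod_inv_distrib, ← prod_mul_distrib]
          refine prod_congr rfl fun p hp => ?_
          have h2 : (2 : ℝ) ≤ p := by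
            exact_mod_cast (Nat.prime_of_mem_primeFactors hp).two_le
          have h3 : (p : ℝ) - 1 ≠ 0 := by
            intro h0
            linarith
          unfold H2aux.hp
          field_simp
        rw [this]
        ring
    _ ≤ 2 * V * (6 * Real.exp 3 / z) := by
        refine mul_le_mul_of_nonneg_left (sum_RR hz) (by positivity)
    _ = 12 * Real.exp 3 * V / z := by ring

end Pool.Agent.N99.SP
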